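import Pool.Agent.H252.UQ.Iface

set_option autoImplicit false

open scoped ComplexConjugate

noncomputable section

namespace Pool.Agent.H922.UQTW

open Pool.Agent.H923R2.FP Pool.Agent.H923R2.FZ Pool.Agent.N300.UN Pool.Agent.H252.UQ
open Filter Topology

/-- a positive lower bound of finitely many positive numbers -/
theorem exists_pos_le {ι : Type} (s : Finset ι) (δ : ι → ℝ) (h : ∀ i ∈ s, 0 < δ i) (c : ℝ)
    (hc : 0 < c) : ∃ z : ℝ, 0 < z ∧ z ≤ c ∧ ∀ i ∈ s, z ≤ δ i := by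
  classical
  induction s using Finset.induction_on with
  | empty => exact ⟨c, hc, le_refl c, fun i hi => absurd hi (Finset.notMem_empty i)⟩
  | insert a s _ ih =>
    obtain ⟨z, hz, hzc, hzs⟩ := ih (fun i hi => h i (Finset.mem_insert_of_mem hi))
    refine ⟨min z (δ a), lt_min hz (h a (Finset.mem_insert_self a s)),
      le_trans (min_le_left _ _) hzc, fun i hi => ?_⟩
    rcases Finset.mem_insert.1 hi with rfl | hi
    · exact min_le_right _ _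
    · exact le_trans (min_le_left _ _) (hzs i hi)

/-- an upper bound of finitely many numbers -/
theorem exists_ub {ι : Type} (s : Finset ι) (f : ι → ℝ) : ∃ M : ℝ, 0 ≤ M ∧ ∀ i ∈ s, f i ≤ M := by
  refine ⟨∑ i ∈ s, |f i|, Finset.sum_nonneg (fun i _ => abs_nonneg _), fun i hi => ?_⟩
  exact le_trans (le_abs_self _)
    (Finset.single_le_sum (f := fun i => |f i|) (fun i _ => abs_nonneg _) hi)

/-- `G(t)/√t` as a continuous function -/
def gd (G : C(ℝ, ℝ)) : C(ℝ, ℝ) :=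
  ⟨fun t => G t / Real.sqrt (max t (1 / 8)), by
    refine G.continuous.div (Real.continuous_sqrt.comp (continuous_id.max continuous_const))
      fun t => ?_
    exact (Real.sqrt_pos.2 (lt_of_lt_of_le (by norm_num) (le_max_right t (1 / 8)))).ne'⟩

theorem gd_eq (G : C(ℝ, ℝ)) (hG : ∀ t, t ≤ 1 / 8 → G t = 0) :
    (fun t => G t / Real.sqrt t) = gd G := by
  funext t
  show G t / Real.sqrt t = G t / Real.sqrt (max t (1 / 8))
  rcases le_total t (1 / 8) with h | h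
  · rw [hG t h, zero_div, zero_div]
  · rw [max_eq_left h]

/-- the norm of `ψ(G ∘ H)` -/
theorem norm_cr_le {n : ℕ} {A : Type} [CStarAlgebra A] (ψ : C(Cube n, ℂ) →⋆ₐ[ℂ] A)
    (H : C(Cube n, ℝ)) {M : ℝ} (hM : 0 ≤ M) (h : ∀ x, |H x| ≤ M) : ‖ψ (cr H)‖ ≤ M := by
  refine le_trans (NonUnitalStarAlgHom.norm_apply_le ψ (cr H)) ?_
  rw [ContinuousMap.norm_le _ hM]
  intro x
  rw [cr_apply, Complex.norm_real, Real.norm_eq_abs]
  exact h x

theorem cr_selfAdjoint {n : ℕ} (H : C(Cube n, ℝ)) : IsSelfAdjoint (cr H) := by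
  show star (cr H) = cr H
  ext x
  rw [ContinuousMap.star_apply, cr_apply]
  exact Complex.conj_ofReal _

theorem s_TW (hT : S_TX) (hU : S_UCFC) (hX : S_CFX) : S_TW := by
  intro A _ τ hτ hC hP n hn φ ψ hφ hψ hφψ F 𝒢 h𝒢 ζ κ hζ hκ
  -- bounds
  obtain ⟨MF, hMF0, hMF⟩ := exists_ub F (fun f => ‖f‖)
  have hb : ∀ G : C(ℝ, ℝ), ∃ C : ℝ, ∀ t ∈ Set.Icc (0 : ℝ) 1, ‖gd G t‖ ≤ C := fun G =>
    isCompact_Icc.exists_bound_of_continuousOn (gd G).continuous.continuousOn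
  choose CG hCG using hb
  obtain ⟨MG, hMG0, hMG⟩ := exists_ub 𝒢 CG
  have hMF1 : 0 < MF + 1 := by linarith
  have hMG1 : 0 < MG + 1 := by linarith
  -- the precision
  obtain ⟨ζ₁, hζ₁, hζ₁'⟩ : ∃ ζ₁ : ℝ, 0 < ζ₁ ∧ 6 * MF * ζ₁ ≤ ζ / 2 := by
    refine ⟨ζ / (12 * (MF + 1)), by positivity, ?_⟩
    have e1 : 6 * MF * (ζ / (12 * (MF + 1))) = (ζ / 2) * (MF / (MF + 1)) := by
      field_simp
      ring
    rw [e1]
    have e2 : MF / (MF + 1) ≤ 1 := by rw [div_le_one hMF1]; linarith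
    nlinarith
  obtain ⟨r, hr, hr'⟩ : ∃ r : ℝ, 0 < r ∧ 3 * r * MG ≤ ζ / 4 := by
    refine ⟨ζ / (12 * (MG + 1)), by positivity, ?_⟩
    have e1 : 3 * (ζ / (12 * (MG + 1))) * MG = (ζ / 4) * (MG / (MG + 1)) := by
      field_simp
      ring
    rw [e1]
    have e2 : MG / (MG + 1) ≤ 1 := by rw [div_le_one hMG1]; linarith
    nlinarith
  have hz0 : 0 < ζ / (4 * ((MF + 1) * (MG + 1))) := by positivity
  -- uniform continuity of the calculus
  have hu : ∀ G : C(ℝ, ℝ), ∃ δ : ℝ, 0 < δ ∧ ∀ (a b : A), IsSelfAdjoint a → IsSelfAdjoint b →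
      ‖a‖ ≤ 4 → ‖b‖ ≤ 4 → ‖a - b‖ ≤ δ → ‖cfc (G : ℝ → ℝ) a - cfc (G : ℝ → ℝ) b‖ ≤ ζ₁ := fun G => by
    obtain ⟨δ, hδ, h⟩ := hU G G.continuous 4 ζ₁ hζ₁
    exact ⟨δ, hδ, fun a b => h A a b⟩
  choose δ hδ0 hδ using hu
  obtain ⟨z, hz, hzc, hzδ⟩ := exists_pos_le 𝒢 (fun G => min (δ G) (δ (gd G)))
    (fun G _ => lt_min (hδ0 G) (hδ0 _)) _ hz0
  -- uniform continuity of the functions
  have hω : ∀ f : C(Cube n, ℂ), ∃ ω : ℝ, 0 < ω ∧ ∀ x y, dist x y < ω → ‖f x - f y‖ ≤ r := fun f => by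
    obtain ⟨ω, h1, h2⟩ := Metric.uniformContinuous_iff.1
      (CompactSpace.uniformContinuous_of_continuous f.continuous) r hr
    refine ⟨ω, h1, fun x y hxy => ?_⟩
    rw [← dist_eq_norm]
    exact (h2 hxy).le
  choose om hom0 hom using hω
  obtain ⟨ω, hω0, -, hωF⟩ := exists_pos_le F om (fun f _ => hom0 f) 1 one_pos
  obtain ⟨T, H, hH, hκ', hT2, hTH, hint⟩ := hT A τ hτ hC n hn φ ψ hφ hψ hφψ ω κ z hω0 hκ hz
  obtain ⟨w, hw⟩ := hP T (1 / 8) (by norm_num)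
  refine ⟨w, H, hH, hκ', fun f hf G hG => ?_⟩
  -- data for `G`
  have ha : IsSelfAdjoint (star T * T) := IsSelfAdjoint.star_mul_self T
  have hbb : IsSelfAdjoint (ψ (cr H)) := (cr_selfAdjoint H).map ψ
  have hna : ‖star T * T‖ ≤ 4 := by
    rw [CStarRing.norm_star_mul_self]
    have := norm_nonneg T
    nlinarith
  have hnb : ‖ψ (cr H)‖ ≤ 4 := le_trans (norm_cr_le ψ H zero_le_one (fun x => by
    rw [abs_of_nonneg (hH x).1]; exact (hH x).2)) (by norm_num)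
  have hz1 := hzδ G hG
  have g1 := hδ G (star T * T) (ψ (cr H)) ha hbb hna hnb
    (le_trans hTH (le_trans hz1 (min_le_left _ _)))
  have g2 := hδ (gd G) (star T * T) (ψ (cr H)) ha hbb hna hnb
    (le_trans hTH (le_trans hz1 (min_le_right _ _)))
  rw [hX (Cube n) A ψ H G] at g1
  rw [hX (Cube n) A ψ H (gd G)] at g2
  have g3 := hw G G.continuous (h𝒢 G hG)
  rw [gd_eq G (h𝒢 G hG)] at g3
  have hwn : ‖(w : A)‖ ≤ 1 := by
    have e1 : star (w : A) * (w : A) = 1 := Unitary.coe_star_mul_self w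
    have e2 : ‖(w : A)‖ * ‖(w : A)‖ = ‖(1 : A)‖ := by rw [← CStarRing.norm_star_mul_self, e1]
    have e3 : ‖(1 : A)‖ * ‖(1 : A)‖ = ‖(1 : A)‖ := by
      rw [← CStarRing.norm_star_mul_self, star_one, one_mul]
    have e4 : ‖(1 : A)‖ ≤ 1 := by nlinarith [norm_nonneg (1 : A)]
    nlinarith [norm_nonneg (w : A)]
  -- the difference `D`
  have hD : ‖(w : A) * ψ (cr (G.comp H)) - T * ψ (cr ((gd G).comp H))‖ ≤ 3 * ζ₁ := by
    have e1 : (w : A) * ψ (cr (G.comp H)) - T * ψ (cr ((gd G).comp H)) =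
        T * (cfc (gd G : ℝ → ℝ) (star T * T) - ψ (cr ((gd G).comp H))) -
        (w : A) * (cfc (G : ℝ → ℝ) (star T * T) - ψ (cr (G.comp H))) := by
      rw [mul_sub, mul_sub, g3]
      abel
    rw [e1]
    refine le_trans (norm_sub_le _ _) ?_
    have t1 := norm_mul_le T (cfc (gd G : ℝ → ℝ) (star T * T) - ψ (cr ((gd G).comp H)))
    have t2 := norm_mul_le (w : A) (cfc (G : ℝ → ℝ) (star T * T) - ψ (cr (G.comp H)))
    have t3 : ‖T‖ * ‖cfc (gd G : ℝ → ℝ) (star T * T) - ψ (cr ((gd G).comp H))‖ ≤ 2 * ζ₁ :=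
      mul_le_mul hT2 g2 (norm_nonneg _) (by norm_num)
    have t4 : ‖(w : A)‖ * ‖cfc (G : ℝ → ℝ) (star T * T) - ψ (cr (G.comp H))‖ ≤ 1 * ζ₁ :=
      mul_le_mul hwn g1 (norm_nonneg _) (by norm_num)
    linarith
  have hg' : ‖ψ (cr ((gd G).comp H))‖ ≤ MG := by
    refine norm_cr_le ψ _ hMG0 (fun x => ?_)
    rw [← Real.norm_eq_abs]
    exact le_trans (hCG G (H x) ⟨(hH x).1, (hH x).2⟩) (hMG G hG)
  have hf1 : ‖f‖ ≤ MF := hMF f hf
  have hφf : ‖φ f‖ ≤ MF := le_trans (NonUnitalStarAlgHom.norm_apply_le φ f) hf1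
  have hψf : ‖ψ f‖ ≤ MF := le_trans (NonUnitalStarAlgHom.norm_apply_le ψ f) hf1
  have hi := hint f r hr.le (fun x y hxy => hom f x y (lt_of_lt_of_le hxy (hωF f hf)))
  have hi' : ‖φ f * T - T * ψ f‖ ≤ 3 * r + z * MF :=
    le_trans hi (by have := mul_le_mul_of_nonneg_left hf1 hz.le; linarith)
  have e2 : φ f * ((w : A) * ψ (cr (G.comp H))) - (w : A) * ψ (f * cr (G.comp H)) =
      φ f * ((w : A) * ψ (cr (G.comp H)) - T * ψ (cr ((gd G).comp H))) -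
      ((w : A) * ψ (cr (G.comp H)) - T * ψ (cr ((gd G).comp H))) * ψ f +
      (φ f * T - T * ψ f) * ψ (cr ((gd G).comp H)) := by
    have c1 : ψ (f * cr (G.comp H)) = ψ (cr (G.comp H)) * ψ f := by
      rw [mul_comm f, map_mul]
    have c2 : ψ (cr ((gd G).comp H)) * ψ f = ψ f * ψ (cr ((gd G).comp H)) := by
      rw [← map_mul, mul_comm, map_mul]
    rw [c1, mul_sub, sub_mul, sub_mul, mul_assoc T, c2, mul_assoc T (ψ f), mul_assoc (w : A),
      mul_assoc (φ f) T]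
    abel
  rw [e2]
  refine le_trans (norm_add_le _ _) ?_
  have n1 := norm_sub_le (φ f * ((w : A) * ψ (cr (G.comp H)) - T * ψ (cr ((gd G).comp H))))
    (((w : A) * ψ (cr (G.comp H)) - T * ψ (cr ((gd G).comp H))) * ψ f)
  have n2 : ‖φ f * ((w : A) * ψ (cr (G.comp H)) - T * ψ (cr ((gd G).comp H)))‖ ≤ MF * (3 * ζ₁) :=
    le_trans (norm_mul_le _ _) (mul_le_mul hφf hD (norm_nonneg _) hMF0)
  have n3 : ‖((w : A) * ψ (cr (G.comp H)) - T * ψ (cr ((gd G).comp H))) * ψ f‖ ≤ (3 * ζ₁) * MF :=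
    le_trans (norm_mul_le _ _) (mul_le_mul hD hψf (norm_nonneg _) (by positivity))
  have n4 : ‖(φ f * T - T * ψ f) * ψ (cr ((gd G).comp H))‖ ≤ (3 * r + z * MF) * MG :=
    le_trans (norm_mul_le _ _) (mul_le_mul hi' hg' (norm_nonneg _) (by positivity))
  have n5 : z * MF * MG ≤ ζ / 4 := by
    have p1 : MF * MG ≤ (MF + 1) * (MG + 1) := by nlinarith
    have p2 : 0 < (MF + 1) * (MG + 1) := by positivity
    calc z * MF * MG = z * (MF * MG) := by ring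
      _ ≤ z * ((MF + 1) * (MG + 1)) := mul_le_mul_of_nonneg_left p1 hz.le
      _ ≤ ζ / (4 * ((MF + 1) * (MG + 1))) * ((MF + 1) * (MG + 1)) :=
        mul_le_mul_of_nonneg_right hzc p2.le
      _ = ζ / 4 := by field_simp
  nlinarith

end Pool.Agent.H922.UQTW
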