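import Pool.Agent.H283.HT.Stm

/-!
# Determinants on the boundary of a symmetric convex body of the plane (task POS)
-/

set_option autoImplicit false

namespace Pool.Agent.H922.HTX

open Pool.Agent.H283.HT

lemma det_self (u : P2) : det u u = 0 := by
  unfold det
  ring

lemma det_neg_right (u v : P2) : det u (-v) = - det u v := by
  unfold det
  rw [Prod.fst_neg, Prod.snd_neg]
  ring

lemma cramer (u v w : P2) : det u v • w = det w v • u + det u w • v := by
  unfold det
  apply Prod.ext
  · simp only [Prod.smul_fst, Prod.fst_add, smul_eq_mul]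
    ring
  · simp only [Prod.smul_snd, Prod.snd_add, smul_eq_mul]
    ring

lemma det_pos {Q : Set P2} {q : ℝ → P2} (hq : Par Q q) {a b : ℝ} (h1 : a < b)
    (h2 : b < a + Real.pi) : 0 < det (q a) (q b) := by
  obtain ⟨r, hr, ha⟩ := hq.pol a
  obtain ⟨s, hs, hb⟩ := hq.pol b
  have h3 : det (q a) (q b) = r * s * Real.sin (b - a) := by
    rw [ha, hb, Real.sin_sub]
    unfold det
    ring
  rw [h3]
  exact mul_pos (mul_pos hr hs) (Real.sin_pos_of_pos_of_lt_pi (by linarith) (by linarith))

lemma det_nonneg {Q : Set P2} {q : ℝ → P2} (hq : Par Q q) {a b : ℝ} (h1 : a ≤ b)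
    (h2 : b ≤ a + Real.pi) : 0 ≤ det (q a) (q b) := by
  rcases eq_or_lt_of_le h1 with rfl | h1
  · rw [det_self]
  · rcases eq_or_lt_of_le h2 with rfl | h2
    · rw [hq.anti, det_neg_right, det_self, neg_zero]
    · exact (det_pos hq h1 h2).le

theorem POS_done : S_POS := by
  intro Q q hQ hq
  refine ⟨fun a b h1 h2 => det_pos hq h1 h2, ?_, fun a b t => cramer _ _ _, ?_, ?_,
    fun a b h1 h2 => det_nonneg hq h1 h2⟩
  · intro a b c hab hbc hca
    rcases eq_or_lt_of_le hab with rfl | hab
    · rw [det_self, zero_add]
    rcases eq_or_lt_of_le hbc with rfl | hbc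
    · rw [det_self, add_zero]
    rcases eq_or_lt_of_le hca with rfl | hca
    · rw [hq.anti a, det_neg_right, det_self, neg_zero]
      have h1 := det_nonneg hq hab.le hbc.le
      have h2 := det_nonneg hq (a := b) (b := a + Real.pi) hbc.le (by linarith)
      rw [hq.anti a] at h2
      exact add_nonneg h1 h2
    · have h1 := det_pos hq hab (by linarith)
      have h2 := det_pos hq hbc (by linarith)
      by_contra hcon
      push Not at hcon
      have hS : 0 < det (q a) (q b) + det (q b) (q c) := add_pos h1 h2
      have h3 := cramer (q a) (q c) (q b)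
      have h4 : (det (q a) (q c) / (det (q a) (q b) + det (q b) (q c))) • q b =
          (det (q b) (q c) / (det (q a) (q b) + det (q b) (q c))) • q a +
          (det (q a) (q b) / (det (q a) (q b) + det (q b) (q c))) • q c := by
        rw [div_eq_inv_mul, div_eq_inv_mul, div_eq_inv_mul, mul_smul, mul_smul, mul_smul,
          ← smul_add, h3]
      refine hq.ext b (det (q a) (q c) / (det (q a) (q b) + det (q b) (q c))) ?_ ?_
      · rwa [one_lt_div hS]
      · rw [h4]
        refine hQ.conv (hq.mem a) (hq.mem c) (div_nonneg h2.le hS.le) (div_nonneg h1.le hS.le) ?_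
        rw [← add_div, add_comm (det (q b) (q c)), div_self hS.ne']
  · intro θ
    have h := hq.anti (θ - Real.pi)
    rw [sub_add_cancel] at h
    rw [h, neg_neg]
  · intro θ hθ
    have hc : Continuous fun c : ℝ => c • q θ := continuous_id.smul continuous_const
    have h1 : (fun c : ℝ => c • q θ) ⁻¹' interior Q ∈ nhds (1 : ℝ) := by
      apply hc.continuousAt.preimage_mem_nhds
      simp only [one_smul]
      exact isOpen_interior.mem_nhds hθ
    obtain ⟨e, he, hball⟩ := Metric.mem_nhds_iff.1 h1
    have h2 : (1 + e / 2 : ℝ) ∈ Metric.ball (1 : ℝ) e := by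
      rw [Metric.mem_ball, Real.dist_eq, add_sub_cancel_left, abs_of_pos (by linarith)]
      linarith
    exact hq.ext θ (1 + e / 2) (by linarith) (interior_subset (hball h2))

end Pool.Agent.H922.HTX
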