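import Mathlib
import Pool.Agent.H546.APStm

/-! # The sum of the Apery polynomials modulo `p ^ 2` -/

set_option autoImplicit false

namespace Pool.Agent.H922.AP2

open Pool.Agent.H546.AP Finset
open Pool.Agent.Q267.CDE (R)

theorem choose_id {n k : ℕ} (h : k ≤ n) :
    n.choose k * (n + k).choose k = (n + k).choose (2 * k) * k.centralBinom := by
  have h1 := Nat.choose_mul (n := n + k) (k := 2 * k) (s := k) (by omega)
  have e1 : n + k - k = n := by omega
  have e2 : 2 * k - k = k := by omega
  rw [e1, e2] at h1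
  rw [Nat.centralBinom_eq_two_mul_choose, h1]
  ring

theorem cb_zero (p : ℕ) [hp : Fact p.Prime] (hp2 : p ≠ 2) {k : ℕ} (h1 : (p - 1) / 2 < k)
    (h2 : k < p) : ((k.centralBinom : ℕ) : R p) ^ 2 = 0 := by
  have hodd : p % 2 = 1 := (hp.out.eq_two_or_odd).resolve_left hp2
  have h3 : p ∣ k.centralBinom := by
    rw [Nat.centralBinom_eq_two_mul_choose]
    exact hp.out.dvd_choose h2 (by omega) (by omega)
  have h4 : p ^ 2 ∣ k.centralBinom ^ 2 := pow_dvd_pow_of_dvd h3 2
  have h5 : (((k.centralBinom ^ 2 : ℕ)) : ZMod (p ^ 2)) = 0 :=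
    (ZMod.natCast_eq_zero_iff _ _).2 h4
  have h6 : (((k.centralBinom ^ 2 : ℕ)) : R p) = 0 := h5
  rw [Nat.cast_pow] at h6
  exact h6

theorem h_S_L : S_L := by
  intro p hp hp2 x
  have h1 : ∀ n ∈ range p,
      ∑ k ∈ range (n + 1), (((n.choose k) ^ 2 * ((n + k).choose k) ^ 2 : ℕ) : R p) * x ^ k =
      ∑ k ∈ range p, (((n + k).choose (2 * k) : ℕ) : R p) ^ 2 *
        (((k.centralBinom : ℕ) : R p) ^ 2 * x ^ k) := by
    intro n hn
    rw [Finset.mem_range] at hn
    have hsub : range (n + 1) ⊆ range p := Finset.range_subset_range.2 hn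
    rw [← Finset.sum_subset hsub]
    · refine Finset.sum_congr rfl fun k hk => ?_
      rw [Finset.mem_range] at hk
      have e : (n.choose k) ^ 2 * ((n + k).choose k) ^ 2 =
          ((n + k).choose (2 * k)) ^ 2 * k.centralBinom ^ 2 := by
        rw [← mul_pow, ← mul_pow, choose_id (by omega)]
      rw [e]
      push_cast
      ring
    · intro k _ hk
      rw [Finset.mem_range] at hk
      rw [Nat.choose_eq_zero_of_lt (show n + k < 2 * k by omega)]
      push_cast
      ring
  rw [Finset.sum_congr rfl h1, Finset.sum_comm]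
  have hodd : p % 2 = 1 := (hp.out.eq_two_or_odd).resolve_left hp2
  have hp1 := hp.out.one_lt
  have hsub : range ((p - 1) / 2 + 1) ⊆ range p := Finset.range_subset_range.2 (by omega)
  rw [← Finset.sum_subset hsub]
  · refine Finset.sum_congr rfl fun k _ => ?_
    rw [← Finset.sum_mul]
    unfold fs
    ring
  · intro k hk hk'
    rw [Finset.mem_range] at hk hk'
    refine Finset.sum_eq_zero fun n _ => ?_
    rw [cb_zero p hp2 (by omega) hk]
    ring

end Pool.Agent.H922.AP2
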