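import Pool.Agent.H770.GS.TF

/-!
TF-7 of project TF (`Pool/Agent/H770/GS/TF.lean`): the pointwise lower bound for the integrand `II` on
the main region `0 ≤ τ ≤ π`.
-/

set_option autoImplicit false

open MeasureTheory Set intervalIntegral Filter Topology

namespace Pool.Agent.H922.TF7

open Pool.Agent.H770.GS

lemma sinc_nonneg' {x : ℝ} (h0 : 0 ≤ x) (h1 : x ≤ Real.pi) : 0 ≤ Real.sinc x := by
  rcases h0.eq_or_lt with h | h
  · rw [← h, Real.sinc_zero]; norm_num
  · rw [Real.sinc_of_ne_zero h.ne']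
    exact div_nonneg (Real.sin_nonneg_of_nonneg_of_le_pi h0 h1) h0

lemma mul_cos_le_sin {x : ℝ} (h0 : 0 ≤ x) (h1 : x ≤ Real.pi) : x * Real.cos x ≤ Real.sin x := by
  by_cases h : x < Real.pi / 2
  · have hc : 0 < Real.cos x := Real.cos_pos_of_mem_Ioo ⟨by linarith [Real.pi_pos], h⟩
    have ht := Real.le_tan h0 h
    rw [Real.tan_eq_sin_div_cos, le_div_iff₀ hc] at ht
    exact ht
  · have hx : Real.pi / 2 ≤ x := not_lt.mp h
    have hc : Real.cos x ≤ 0 :=
      Real.cos_nonpos_of_pi_div_two_le_of_le hx (by linarith [Real.pi_pos])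
    have hs : 0 ≤ Real.sin x := Real.sin_nonneg_of_nonneg_of_le_pi h0 h1
    exact (mul_nonpos_of_nonneg_of_nonpos h0 hc).trans hs

lemma cos_le_sinc' {x : ℝ} (h0 : 0 ≤ x) (h1 : x ≤ Real.pi) : 0 ≤ Real.sinc x - Real.cos x := by
  rcases h0.eq_or_lt with h | h
  · rw [← h, Real.sinc_zero, Real.cos_zero]; norm_num
  · rw [Real.sinc_of_ne_zero h.ne', sub_nonneg, le_div_iff₀ h, mul_comm]
    exact mul_cos_le_sin h0 h1

lemma gg_eq (x : ℝ) : x ^ 2 * (Real.sinc x * (Real.sinc x - Real.cos x)) = gg x := by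
  unfold gg
  rcases eq_or_ne x 0 with h | h
  · simp [h]
  · rw [Real.sinc_of_ne_zero h]
    field_simp

lemma cont_sinc_mul (x : ℝ) : Continuous fun u : ℝ => Real.sinc (u * x) :=
  Real.continuous_sinc.comp (continuous_id.mul continuous_const)

lemma ch_nonneg (ε x : ℝ) (h0 : 0 ≤ x) (h1 : x ≤ Real.pi) : 0 ≤ ch ε x := by
  unfold ch
  apply intervalIntegral.integral_nonneg (by norm_num)
  intro u hu
  have hux : 0 ≤ Real.sinc (u * x) := by
    apply sinc_nonneg' (mul_nonneg hu.1 h0)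
    calc u * x ≤ 1 * x := mul_le_mul_of_nonneg_right hu.2 h0
      _ ≤ Real.pi := by rw [one_mul]; exact h1
  have h2 : 0 ≤ 1 - u ^ 2 := by nlinarith [hu.1, hu.2]
  positivity

/-- the integral inequality -/
lemma key (H5 : S_TF5) (ε b τ : ℝ) (hb : 0 < b) (hb1 : b ≤ 1) (h0 : 0 ≤ τ) (h1 : τ ≤ Real.pi) :
    (1 - b ^ 2) / 2 * (Real.sinc τ - Real.cos τ) * ch ε (b * τ) ≤
      ck ε τ * Real.sinc (b * τ) - ck ε (b * τ) * Real.sinc τ := by
  have hS : ∀ x : ℝ, Continuous fun u : ℝ => u ^ 2 * Real.exp (-(ε * u ^ 2)) * Real.sinc (u * x) :=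
    fun x => (by fun_prop : Continuous fun u : ℝ => u ^ 2 * Real.exp (-(ε * u ^ 2))).mul
      (cont_sinc_mul x)
  have hT : ∀ x : ℝ, Continuous fun u : ℝ =>
      u ^ 2 * (1 - u ^ 2) * Real.exp (-(ε * u ^ 2)) * Real.sinc (u * x) :=
    fun x => (by fun_prop : Continuous fun u : ℝ =>
      u ^ 2 * (1 - u ^ 2) * Real.exp (-(ε * u ^ 2))).mul (cont_sinc_mul x)
  unfold ch ck
  rw [← intervalIntegral.integral_const_mul, ← intervalIntegral.integral_mul_const,
    ← intervalIntegral.integral_mul_const, ← intervalIntegral.integral_sub]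
  · apply intervalIntegral.integral_mono_on (by norm_num)
    · exact ((continuous_const.mul (hT (b * τ)))).intervalIntegrable _ _
    · exact (((hS τ).mul continuous_const).sub ((hS (b * τ)).mul continuous_const)).intervalIntegrable _ _
    · intro u hu
      have h5 := H5 u b τ hu.1 hu.2 hb.le hb1 h0 h1
      have hw : 0 ≤ u ^ 2 * Real.exp (-(ε * u ^ 2)) := by positivity
      have := mul_le_mul_of_nonneg_left h5 hw
      have e : u * (b * τ) = u * b * τ := by ring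
      rw [e]
      calc (1 - b ^ 2) / 2 * (Real.sinc τ - Real.cos τ) *
            (u ^ 2 * (1 - u ^ 2) * Real.exp (-(ε * u ^ 2)) * Real.sinc (u * b * τ))
          = u ^ 2 * Real.exp (-(ε * u ^ 2)) * ((1 - u ^ 2) * (1 - b ^ 2) / 2 *
              Real.sinc (u * b * τ) * (Real.sinc τ - Real.cos τ)) := by ring
        _ ≤ _ := this
        _ = _ := by ring
  · exact ((hS τ).mul continuous_const).intervalIntegrable _ _
  · exact ((hS (b * τ)).mul continuous_const).intervalIntegrable _ _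

/-- **TF7** -/
theorem tf7 : S_TF7 := by
  intro H2 H5 H6 ε b τ k hε hb hb1 hk h0 h1
  obtain ⟨hz, -, -, -, -, -, he⟩ := H2 ε hε
  obtain ⟨hf, -, -, -, -, -, -, -⟩ := H6 H2 ε hε
  have hbt0 : 0 ≤ b * τ := mul_nonneg hb.le h0
  have hbt1 : b * τ ≤ Real.pi := by
    calc b * τ ≤ 1 * τ := mul_le_mul_of_nonneg_right hb1 h0
      _ ≤ Real.pi := by rw [one_mul]; exact h1
  have hS0 : 0 ≤ Real.sinc τ := sinc_nonneg' h0 h1
  have hSc : 0 ≤ Real.sinc τ - Real.cos τ := cos_le_sinc' h0 h1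
  have hfb : 0 ≤ cf ε (b * τ) := (sinc_nonneg' hbt0 hbt1).trans (hf _ hbt0 hbt1)
  have hch : 0 ≤ ch ε (b * τ) := ch_nonneg ε _ hbt0 hbt1
  have hb2 : 0 ≤ 1 - b ^ 2 := by nlinarith
  have hD0 : 0 ≤ 2 * ε / zt ε * ((1 - b ^ 2) / 2 * (Real.sinc τ - Real.cos τ) * ch ε (b * τ)) := by
    positivity
  have hD : 2 * ε / zt ε * ((1 - b ^ 2) / 2 * (Real.sinc τ - Real.cos τ) * ch ε (b * τ)) ≤
      cf ε τ * Real.sinc (b * τ) - cf ε (b * τ) * Real.sinc τ := by
    rw [he]
    exact mul_le_mul_of_nonneg_left (key H5 ε b τ hb hb1 h0 h1) (by positivity)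
  have hp : 0 ≤ cf ε (b * τ) ^ (k - 1) := pow_nonneg hfb _
  have hf0 : Real.sinc τ ≤ cf ε τ := hf τ h0 h1
  calc ε / zt ε * (1 - b ^ 2) * gg τ * ch ε (b * τ) * cf ε (b * τ) ^ (k - 1)
      = τ ^ 2 * Real.sinc τ * cf ε (b * τ) ^ (k - 1) *
        (2 * ε / zt ε * ((1 - b ^ 2) / 2 * (Real.sinc τ - Real.cos τ) * ch ε (b * τ))) := by
        rw [← gg_eq]; ring
    _ ≤ τ ^ 2 * cf ε τ * cf ε (b * τ) ^ (k - 1) *
        (2 * ε / zt ε * ((1 - b ^ 2) / 2 * (Real.sinc τ - Real.cos τ) * ch ε (b * τ))) := by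
        apply mul_le_mul_of_nonneg_right _ hD0
        apply mul_le_mul_of_nonneg_right _ hp
        exact mul_le_mul_of_nonneg_left hf0 (by positivity)
    _ ≤ II ε k b τ := by
        unfold II
        apply mul_le_mul_of_nonneg_left hD
        have : 0 ≤ cf ε τ := hS0.trans hf0
        positivity

end Pool.Agent.H922.TF7
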