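import Pool.Agent.H770.GS.UQ

/-! UQ17 (S_excl) of helper770's project UQ (MP_8ad8d2_gt). -/

set_option autoImplicit false

open MeasureTheory Set intervalIntegral Filter Topology

namespace Pool.Agent.H922.UQ17

open Pool.Agent.Helper82.GC Pool.Agent.H770.GS

theorem s_excl : S_excl := by
  intro _ OD r k a b hr hr2 hk hb hba htr hmax
  obtain ⟨j, rfl⟩ : ∃ j, k = j + 3 := ⟨k - 3, by omega⟩
  obtain ⟨hlen0, hsum0, hnn0, hmax0⟩ := hmax
  have ha : 0 < a := hb.trans hba
  have hsum : 2 * a ^ 2 + ((j + 3 : ℕ) : ℝ) * b ^ 2 = 1 := by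
    simp only [List.map_cons, List.sum_cons, List.map_replicate, List.sum_replicate,
      nsmul_eq_mul] at hsum0
    linarith
  obtain ⟨R, hR⟩ : ∃ R : List ℝ, R = List.replicate j b ++ [a, b, b] := ⟨_, rfl⟩
  have hPR : ∀ τ : ℝ, 0 < τ → P (b * r) (dens r R (kg τ)) := by
    intro τ hτ
    rw [hR, dens_append]
    refine dens_P hr ?_ _ fun c hc => ?_
    · refine P.mono ?_ (by positivity)
      simp only [dens_cons, dens_nil]
      exact htr τ hτ
    · rw [List.eq_of_mem_replicate hc]
      exact ⟨hb.le, le_rfl⟩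
  obtain ⟨L, hL⟩ : ∃ L : List ℝ, L = qm a b :: qm a b :: R := ⟨_, rfl⟩
  have hlen : L.length = j + 3 + 2 := by
    rw [hL, hR]
    simp
  have hsq : (L.map fun x => x ^ 2).sum = 1 := by
    rw [hL, hR]
    simp only [List.map_cons, List.sum_cons, List.map_append, List.sum_append, qm_sq,
      List.map_nil, List.sum_nil, List.map_replicate, List.sum_replicate, nsmul_eq_mul]
    push_cast at hsum
    linarith
  have hnorm := vec_norm hlen hsq
  have hperm : (a :: a :: List.replicate (j + 3) b).Perm (a :: b :: R) := by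
    rw [hR, ← Multiset.coe_eq_coe]
    simp only [← Multiset.cons_coe, ← Multiset.coe_add, Multiset.coe_nil, List.replicate_succ,
      List.replicate_zero]
    simp only [← Multiset.singleton_add, add_zero]
    abel
  have hnorm0 : ‖vec (j + 3 + 2) (a :: a :: List.replicate (j + 3) b)‖ = 1 :=
    vec_norm (by simp) hsum0
  have h1 : Asl r (vec (j + 3 + 2) (a :: a :: List.replicate (j + 3) b)) 0 ≤
      Asl r (vec (j + 3 + 2) L) 0 := by
    refine le_of_tendsto_of_tendsto (dens_tendsto hr _ hnorm0) (dens_tendsto hr _ hnorm) ?_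
    refine eventually_nhdsWithin_of_forall fun τ hτ => ?_
    simp only
    rw [ofFn_vec hlen, ofFn_vec (by simp), dens_perm (gs_cont τ) hperm, hL]
    exact dens_exchange hr hb.le hba.le (hPR τ hτ)
  have hq0 : 0 ≤ qm a b := qm_nonneg a b
  have hqa : qm a b < a := by
    have h := qm_sq a b
    by_contra hc
    push Not at hc
    nlinarith
  have hML : MaxL r (j + 3 + 2) L := by
    refine ⟨hlen, hsq, ?_, fun θ hθ => (hmax0 θ hθ).trans h1⟩
    intro x hx
    rw [hL, hR] at hx
    simp only [List.mem_cons, List.mem_append, List.not_mem_nil, or_false] at hx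
    rcases hx with h | h | h | h | h | h
    · rw [h]; exact hq0
    · rw [h]; exact hq0
    · rw [List.eq_of_mem_replicate h]; exact hb.le
    · rw [h]; exact ha.le
    · rw [h]; exact hb.le
    · rw [h]; exact hb.le
  have h2 := (OD r (j + 3 + 2) L hr hr2 hML).1 a
  refine absurd (h2 ?_ b ?_) (not_le.2 hba)
  · rw [hL, hR]
    have e1 : ¬ (b = a) := hba.ne
    have e2 : ¬ (qm a b = a) := hqa.ne
    simp [List.count_cons, List.count_append, List.count_replicate, e1, e2]
  · rw [hL, hR]
    simp

end Pool.Agent.H922.UQ17
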