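import Pool.Agent.H867.FT.Gen

/-!
# Cartier maps and the order valuation ring (task FTG TV, helper922)
-/

set_option autoImplicit false
set_option linter.all false

namespace Pool.Agent.H922.FTTV

open Pool.Agent.H867.FT
open scoped Pointwise

section mono

variable {P : Type} [CommRing P] {d : ℕ} (x : Fin d → P)

/-- monomials of degree `N` -/
def Mon (N : ℕ) : Set P := {g | ∃ a : Fin d → ℕ, ∑ i, a i = N ∧ g = ∏ i, x i ^ a i}

theorem pow_le_span (N : ℕ) : Ideal.span (Set.range x) ^ N ≤ Ideal.span (Mon x N) := by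
  induction N with
  | zero =>
    rw [pow_zero, Ideal.one_eq_top, top_le_iff, Ideal.eq_top_iff_one]
    apply Ideal.subset_span
    exact ⟨fun _ => 0, by simp, by simp⟩
  | succ N ih =>
    rw [pow_succ]
    refine (Ideal.mul_mono_left ih).trans ?_
    rw [Ideal.span_mul_span']
    apply Ideal.span_mono
    rintro _ ⟨g, ⟨a, ha, rfl⟩, _, ⟨j, rfl⟩, rfl⟩
    refine ⟨fun i => a i + if i = j then 1 else 0, ?_, ?_⟩
    · rw [Finset.sum_add_distrib, ha, Finset.sum_ite_eq' Finset.univ j, if_pos (Finset.mem_univ j)]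
    · show (∏ i, x i ^ a i) * x j = _
      simp only [pow_add]
      rw [Finset.prod_mul_distrib]
      congr 1
      rw [Finset.prod_eq_single j]
      · rw [if_pos rfl, pow_one]
      · intro i _ hi
        rw [if_neg hi, pow_zero]
      · intro h
        exact absurd (Finset.mem_univ j) h

theorem mono_mem (b : Fin d → ℕ) : (∏ i, x i ^ b i) ∈ Ideal.span (Set.range x) ^ (∑ i, b i) := by
  rw [← Finset.prod_pow_eq_pow_sum]
  apply Ideal.prod_mem_prod
  intro i _
  exact Ideal.pow_mem_pow (Ideal.subset_span (Set.mem_range_self i)) _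

theorem cart_mono {q j : ℕ} (hq : 1 ≤ q) (hd : 1 ≤ d) (T : P →+ P) (hT : IsCartier q T) (g : P)
    (hg : g ∈ Ideal.span (Set.range x) ^ ((d - 1) * (q - 1) + q * j)) :
    T g ∈ Ideal.span (Set.range x) ^ j := by
  have h1 := pow_le_span x _ hg
  have key : ∀ g ∈ Ideal.span (Mon x ((d - 1) * (q - 1) + q * j)), ∀ r : P,
      T (r * g) ∈ Ideal.span (Set.range x) ^ j := by
    intro g hg
    induction hg using Submodule.span_induction with
    | mem g hg =>
      intro r
      obtain ⟨a, ha, rfl⟩ := hg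
      have e : r * ∏ i, x i ^ a i = (∏ i, x i ^ (a i / q)) ^ q * ((∏ i, x i ^ (a i % q)) * r) := by
        rw [← Finset.prod_pow, ← mul_assoc, ← Finset.prod_mul_distrib, mul_comm]
        congr 1
        refine Finset.prod_congr rfl fun i _ => ?_
        rw [← pow_mul, ← pow_add, Nat.div_add_mod']
      rw [e, hT]
      apply Ideal.mul_mem_right
      refine Ideal.pow_le_pow_right ?_ (mono_mem x fun i => a i / q)
      have h2 : ∑ i, a i ≤ q * ∑ i, a i / q + d * (q - 1) := by
        rw [Finset.mul_sum]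
        have h3 : (d * (q - 1)) = ∑ _i : Fin d, (q - 1) := by simp
        rw [h3, ← Finset.sum_add_distrib]
        refine Finset.sum_le_sum fun i _ => ?_
        have h4 := Nat.div_add_mod (a i) q
        have h5 := Nat.mod_lt (a i) (show 0 < q by omega)
        omega
      rw [ha] at h2
      by_contra hlt
      push Not at hlt
      have h3 : q * (∑ i, a i / q) + q ≤ q * j := by
        calc q * (∑ i, a i / q) + q = q * ((∑ i, a i / q) + 1) := by ring
          _ ≤ q * j := Nat.mul_le_mul_left q hlt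
      obtain ⟨e', rfl⟩ : ∃ e', d = e' + 1 := ⟨d - 1, by omega⟩
      have h4 : (e' + 1) * (q - 1) = (e' + 1 - 1) * (q - 1) + (q - 1) := by
        rw [Nat.add_sub_cancel]; ring
      omega
    | zero =>
      intro r
      rw [mul_zero, map_zero]
      exact Ideal.zero_mem _
    | add g g' _ _ h h' =>
      intro r
      rw [mul_add, map_add]
      exact Ideal.add_mem _ (h r) (h' r)
    | smul s g _ h =>
      intro r
      rw [smul_eq_mul, ← mul_assoc]
      exact h (r * s)
  have h2 := key g h1 1
  rwa [one_mul] at h2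

end mono

theorem tv : S_TV := by
  intro p d q P L V _ _ _ _ _ _ _ _ _ _ _ _ _ π hP hq hd hπ hord T TL hT hTL hTT v
  obtain ⟨x, hx⟩ := hP.gens
  obtain ⟨a, s, hs, has⟩ := IsFractionRing.div_surjective (A := P) (algebraMap V L v)
  have hs0 : s ≠ 0 := nonZeroDivisors.ne_zero hs
  have hPL : Function.Injective (algebraMap P L) := IsFractionRing.injective P L
  have hVL : Function.Injective (algebraMap V L) := IsFractionRing.injective V L
  have hsL : algebraMap P L s ≠ 0 := by
    intro h
    exact hs0 (hPL (by rw [h, map_zero]))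
  have hsV : algebraMap P V s ≠ 0 := by
    intro h
    apply hsL
    rw [IsScalarTower.algebraMap_apply P V L, h, map_zero]
  obtain ⟨l, u, hu⟩ := IsDiscreteValuationRing.eq_unit_mul_pow_irreducible hsV hπ
  have ha : algebraMap P V a = algebraMap P V s * v := by
    apply hVL
    rw [map_mul, ← IsScalarTower.algebraMap_apply, ← IsScalarTower.algebraMap_apply, ← has,
      mul_div_cancel₀ _ hsL]
  have hmem : π ^ ((d - 1) * (q - 1)) * a * s ^ (q - 1) ∈
      IsLocalRing.maximalIdeal P ^ ((d - 1) * (q - 1) + q * l) := by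
    rw [hord]
    refine ⟨(u : V) ^ q * v, ?_⟩
    obtain ⟨q', rfl⟩ : ∃ q', q = q' + 1 := ⟨q - 1, by omega⟩
    rw [Nat.add_sub_cancel, map_mul, map_mul, map_pow, map_pow, ha, hu]
    ring
  rw [hx] at hmem
  have hTm := cart_mono x hq hd T hT _ hmem
  rw [← hx, hord] at hTm
  obtain ⟨z, hz⟩ := hTm
  refine ⟨((u⁻¹ : Vˣ) : V) * z, ?_⟩
  have e1 : algebraMap V L (algebraMap P V π ^ ((d - 1) * (q - 1)) * v) =
      (1 / algebraMap P L s) ^ q * algebraMap P L (π ^ ((d - 1) * (q - 1)) * a * s ^ (q - 1)) := by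
    obtain ⟨q', rfl⟩ : ∃ q', q = q' + 1 := ⟨q - 1, by omega⟩
    rw [Nat.add_sub_cancel, map_mul, map_pow, ← IsScalarTower.algebraMap_apply, ← has, map_mul,
      map_mul, map_pow, map_pow, div_pow, one_pow, pow_succ (algebraMap P L s)]
    have hsq : algebraMap P L s ^ q' ≠ 0 := pow_ne_zero _ hsL
    field_simp
  rw [e1, hTL, hTT]
  rw [div_mul_eq_mul_div, one_mul, div_eq_iff hsL, IsScalarTower.algebraMap_apply P V L s,
    IsScalarTower.algebraMap_apply P V L (T _), hz, hu, ← map_mul]
  congr 1
  calc algebraMap P V π ^ l * z = (((u⁻¹ : Vˣ) : V) * (u : V)) * (algebraMap P V π ^ l * z) := by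
        rw [Units.inv_mul, one_mul]
    _ = _ := by ring

end Pool.Agent.H922.FTTV
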