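import Pool.Agent.H252.EL.Iface

/-! # NRM: normalisation -/

set_option autoImplicit false

namespace Pool.Agent.H922.ELNRM

open Pool.Agent.H252.EL

/-- a self-adjoint element close to `1` has an inverse square root which commutes with everything
that commutes with it -/
theorem exists_inv_sqrt {B : Type} [CStarAlgebra B] [Nontrivial B] {k p : B}
    (hk : IsSelfAdjoint k) (h1 : ‖k - 1‖ < 1) (hp : Commute k p) :
    ∃ r : B, star r = r ∧ Commute r p ∧ r * k * r = 1 := by
  have hspec : ∀ t ∈ spectrum ℝ k, 0 < t := by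
    intro t ht
    have h2 : t - 1 ∈ spectrum ℝ (k - 1) := by
      rw [spectrum.mem_iff] at ht ⊢
      have e : (algebraMap ℝ B) (t - 1) - (k - 1) = (algebraMap ℝ B) t - k := by
        rw [map_sub, map_one]
        abel
      rw [e]
      exact ht
    have h3 : ‖t - 1‖ ≤ ‖k - 1‖ := by
      have h4 := spectrum.norm_le_norm_mul_of_mem h2
      rwa [CStarRing.norm_one, mul_one] at h4
    rw [Real.norm_eq_abs] at h3
    have h5 := (abs_lt.1 (lt_of_le_of_lt h3 h1)).1
    linarith
  have hc : ContinuousOn (fun t : ℝ => 1 / Real.sqrt t) (spectrum ℝ k) := by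
    refine ContinuousOn.div continuousOn_const Real.continuous_sqrt.continuousOn ?_
    intro t ht
    exact (Real.sqrt_pos.2 (hspec t ht)).ne'
  refine ⟨cfc (fun t : ℝ => 1 / Real.sqrt t) k, ?_, ?_, ?_⟩
  · exact (cfc_predicate (fun t : ℝ => 1 / Real.sqrt t) k : IsSelfAdjoint _)
  · exact hp.cfc_real _
  · have e1 : k = cfc (fun t : ℝ => t) k := (cfc_id' ℝ k hk).symm
    have e2 : cfc (fun t : ℝ => 1 / Real.sqrt t) k * k =
        cfc (fun t : ℝ => 1 / Real.sqrt t * t) k := by
      conv_lhs => rw [e1]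
      conv_lhs => rw [← e1]
      rw [cfc_mul (fun t : ℝ => 1 / Real.sqrt t) (fun t : ℝ => t) k hc continuousOn_id, ← e1]
    rw [e2, ← cfc_mul (fun t : ℝ => 1 / Real.sqrt t * t) (fun t : ℝ => 1 / Real.sqrt t) k
      (hc.mul continuousOn_id) hc]
    have e3 : Set.EqOn (fun t : ℝ => 1 / Real.sqrt t * t * (1 / Real.sqrt t)) (fun _ => 1)
        (spectrum ℝ k) := by
      intro t ht
      have ht0 := hspec t ht
      have h6 : Real.sqrt t ≠ 0 := (Real.sqrt_pos.2 ht0).ne'
      show 1 / Real.sqrt t * t * (1 / Real.sqrt t) = 1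
      have h7 : Real.sqrt t * Real.sqrt t = t := Real.mul_self_sqrt ht0.le
      field_simp
      nlinarith
    rw [cfc_congr e3, cfc_const_one ℝ k]

theorem s_NRM : S_NRM := by
  intro B _ x g p p' hp hp' hpp hn
  rcases subsingleton_or_nontrivial B with hB | hB
  · exact ⟨0, Subsingleton.elim _ _⟩
  obtain ⟨b, hb⟩ : ∃ b, b = star x * x := ⟨_, rfl⟩
  rw [← hb] at hn ⊢
  have hbs : star b = b := by rw [hb, star_mul, star_star]
  have hps : star p = p := hp.isSelfAdjoint
  have hpi : p * p = p := hp.isIdempotentElem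
  have hps' : star p' = p' := hp'.isSelfAdjoint
  have hpi' : p' * p' = p' := hp'.isIdempotentElem
  obtain ⟨h, hh⟩ : ∃ h, h = p * (g * b * star g) * p := ⟨_, rfl⟩
  have hhs : star h = h := by
    rw [hh]
    simp only [star_mul, star_star, hps, hbs, mul_assoc]
  have hph : p * h = h := by
    rw [hh, ← mul_assoc, ← mul_assoc, hpi]
  have hhp : h * p = h := by
    rw [hh, mul_assoc, hpi]
  obtain ⟨k, hk⟩ : ∃ k, k = h + (1 - p) := ⟨_, rfl⟩
  have hks : IsSelfAdjoint k := by
    show star k = k
    rw [hk, star_add, hhs, star_sub, star_one, hps]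
  have hpk : p * k = h := by
    rw [hk, mul_add, hph, mul_sub, mul_one, hpi, sub_self, add_zero]
  have hkp : k * p = h := by
    rw [hk, add_mul, hhp, sub_mul, one_mul, hpi, sub_self, add_zero]
  have hk1 : k - 1 = p * (g * b * star g - p) * p := by
    rw [mul_sub, sub_mul, ← hh, hpi, hpi, hk]
    abel
  have hpn : ‖p‖ ≤ 1 := hp.norm_le
  have hkn : ‖k - 1‖ < 1 := by
    rw [hk1]
    calc ‖p * (g * b * star g - p) * p‖ ≤ ‖p * (g * b * star g - p)‖ * ‖p‖ := norm_mul_le _ _
      _ ≤ (‖p‖ * ‖g * b * star g - p‖) * ‖p‖ :=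
          mul_le_mul_of_nonneg_right (norm_mul_le _ _) (norm_nonneg _)
      _ ≤ (1 * ‖g * b * star g - p‖) * 1 := by
          apply mul_le_mul _ hpn (norm_nonneg _) (by positivity)
          exact mul_le_mul_of_nonneg_right hpn (norm_nonneg _)
      _ < 1 := by rw [one_mul, mul_one]; exact hn
  obtain ⟨r, hrs, hrp, hrk⟩ := exists_inv_sqrt (p := p) hks hkn (hkp.trans hpk.symm)
  have hrhr : r * h * r = p := by
    calc r * h * r = r * (k * p) * r := by rw [hkp]
      _ = r * k * (p * r) := by simp only [mul_assoc]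
      _ = r * k * (r * p) := by rw [hrp.eq]
      _ = r * k * r * p := by simp only [mul_assoc]
      _ = p := by rw [hrk, one_mul]
  refine ⟨p' * r * p * g, ?_⟩
  calc p' * r * p * g * b * star (p' * r * p * g)
      = p' * (r * (p * (g * b * star g) * p) * r) * p' := by
        simp only [star_mul, hps, hps', hrs, mul_assoc]
    _ = p' * p * p' := by rw [← hh, hrhr]
    _ = p' := by rw [mul_assoc, hpp, hpi']

end Pool.Agent.H922.ELNRM
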