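import Pool.Agent.H979.FC.Stm

/-!
HHL of project FC (`Pool/Agent/H979/FC/Stm.lean`): the local form of the condition `HH`.
-/

set_option autoImplicit false

open MeasureTheory ProbabilityTheory Finset
open scoped ENNReal NNReal

namespace Pool.Agent.H922

open Pool.Agent.H979.FR Pool.Agent.H979.FC

namespace FCHHL

lemma pow_sub_le (t ε : ℝ) (ht : 0 < t) (h1 : ε ≤ t) (n : ℕ) :
    t ^ (n + 1) - (t - ε) ^ (n + 1) ≤ (n + 1) * ε * t ^ n := by
  have hx : -2 ≤ -(ε / t) := by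
    have : ε / t ≤ 1 := (div_le_one ht).mpr h1
    linarith
  have hb := one_add_mul_le_pow hx (n + 1)
  have e : t - ε = t * (1 + -(ε / t)) := by field_simp; ring
  rw [e, mul_pow]
  have hm := mul_le_mul_of_nonneg_left hb (pow_pos ht (n + 1)).le
  have e2 : t ^ (n + 1) * (1 + ((n + 1 : ℕ) : ℝ) * -(ε / t)) = t ^ (n + 1) - (n + 1) * ε * t ^ n := by
    push_cast
    field_simp
    ring
  rw [e2] at hm
  linarith

lemma cube_le (k : ℕ) : (k : ℝ) ^ 3 ≤ 8 ^ k := by
  have h : (k : ℝ) ≤ 2 ^ k := by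
    have := (Nat.lt_two_pow_self (n := k)).le
    exact_mod_cast this
  calc (k : ℝ) ^ 3 ≤ (2 ^ k) ^ 3 := pow_le_pow_left₀ (Nat.cast_nonneg k) h 3
    _ = 8 ^ k := by rw [← pow_mul, mul_comm, pow_mul]; norm_num

/-- the bound of one term -/
lemma term_le {b C c lam lam' t ε : ℝ} (hlam0 : 0 < lam) (hlam : lam ≤ b)
    (hlam' : lam ≤ lam') (ht : 0 < t) (htb : t ≤ b) (h0 : 0 ≤ ε) (h1 : ε ≤ t)
    (hc0 : 0 ≤ c) (hc : c ≤ C) (k : ℕ) (hk : 2 ≤ k) :
    (k : ℝ) ^ 2 * c ^ k * (lam * q k t - lam' * q k (t - ε)) ≤ ε * ((8 * C * b) ^ k / k.factorial) := by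
  obtain ⟨n, rfl⟩ : ∃ n, k = n + 1 := ⟨k - 1, by omega⟩
  have hb : 0 < b := hlam0.trans_le hlam
  have hC : 0 ≤ C := hc0.trans hc
  have hf : (0 : ℝ) < ((n + 1).factorial : ℝ) := by exact_mod_cast Nat.factorial_pos _
  have ht' : 0 ≤ t - ε := by linarith
  have hq' : 0 ≤ q (n + 1) (t - ε) := by unfold q; positivity
  have s1 : lam * q (n + 1) t - lam' * q (n + 1) (t - ε) ≤
      lam * (q (n + 1) t - q (n + 1) (t - ε)) := by
    nlinarith
  have s2 : q (n + 1) t - q (n + 1) (t - ε) ≤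
      (t ^ (n + 1) - (t - ε) ^ (n + 1)) / ((n + 1).factorial : ℝ) := by
    unfold q
    have he : Real.exp (-t) ≤ Real.exp (-(t - ε)) := Real.exp_le_exp.mpr (by linarith)
    have he1 : Real.exp (-t) ≤ 1 := Real.exp_le_one_iff.mpr (by linarith)
    have hp : (t - ε) ^ (n + 1) ≤ t ^ (n + 1) := pow_le_pow_left₀ ht' (by linarith) _
    have hp0 : 0 ≤ (t - ε) ^ (n + 1) := pow_nonneg ht' _
    rw [← sub_div]
    apply div_le_div_of_nonneg_right _ hf.le
    calc Real.exp (-t) * t ^ (n + 1) - Real.exp (-(t - ε)) * (t - ε) ^ (n + 1)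
        ≤ Real.exp (-t) * t ^ (n + 1) - Real.exp (-t) * (t - ε) ^ (n + 1) := by
          have := mul_le_mul_of_nonneg_right he hp0
          linarith
      _ = Real.exp (-t) * (t ^ (n + 1) - (t - ε) ^ (n + 1)) := by ring
      _ ≤ 1 * (t ^ (n + 1) - (t - ε) ^ (n + 1)) :=
          mul_le_mul_of_nonneg_right he1 (by linarith)
      _ = _ := one_mul _
  have s3 := pow_sub_le t ε ht h1 n
  have s4 : t ^ n ≤ b ^ n := pow_le_pow_left₀ ht.le htb n
  have s5 : lam * q (n + 1) t - lam' * q (n + 1) (t - ε) ≤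
      (n + 1) * ε * b ^ (n + 1) / ((n + 1).factorial : ℝ) := by
    calc lam * q (n + 1) t - lam' * q (n + 1) (t - ε)
        ≤ lam * (q (n + 1) t - q (n + 1) (t - ε)) := s1
      _ ≤ lam * ((t ^ (n + 1) - (t - ε) ^ (n + 1)) / ((n + 1).factorial : ℝ)) :=
          mul_le_mul_of_nonneg_left s2 hlam0.le
      _ ≤ lam * ((n + 1) * ε * t ^ n / ((n + 1).factorial : ℝ)) := by
          apply mul_le_mul_of_nonneg_left _ hlam0.le
          exact div_le_div_of_nonneg_right s3 hf.le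
      _ ≤ b * ((n + 1) * ε * b ^ n / ((n + 1).factorial : ℝ)) := by
          apply mul_le_mul hlam _ (by positivity) hb.le
          apply div_le_div_of_nonneg_right _ hf.le
          exact mul_le_mul_of_nonneg_left s4 (by positivity)
      _ = _ := by rw [pow_succ]; ring
  have s6 : c ^ (n + 1) ≤ C ^ (n + 1) := pow_le_pow_left₀ hc0 hc _
  have s7 := cube_le (n + 1)
  calc ((n + 1 : ℕ) : ℝ) ^ 2 * c ^ (n + 1) * (lam * q (n + 1) t - lam' * q (n + 1) (t - ε))
      ≤ ((n + 1 : ℕ) : ℝ) ^ 2 * c ^ (n + 1) *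
          ((n + 1) * ε * b ^ (n + 1) / ((n + 1).factorial : ℝ)) :=
        mul_le_mul_of_nonneg_left s5 (by positivity)
    _ ≤ ((n + 1 : ℕ) : ℝ) ^ 2 * C ^ (n + 1) *
          ((n + 1) * ε * b ^ (n + 1) / ((n + 1).factorial : ℝ)) := by
        apply mul_le_mul_of_nonneg_right _ (by positivity)
        exact mul_le_mul_of_nonneg_left s6 (by positivity)
    _ = ((n + 1 : ℕ) : ℝ) ^ 3 * (ε * (C * b) ^ (n + 1) / ((n + 1).factorial : ℝ)) := by
        push_cast
        rw [mul_pow]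
        ring
    _ ≤ 8 ^ (n + 1) * (ε * (C * b) ^ (n + 1) / ((n + 1).factorial : ℝ)) :=
        mul_le_mul_of_nonneg_right s7 (by positivity)
    _ = ε * ((8 * C * b) ^ (n + 1) / ((n + 1).factorial : ℝ)) := by
        rw [mul_assoc 8 C b, mul_pow 8 (C * b)]
        ring

end FCHHL

open FCHHL

/-- **HHL** -/
theorem fc_hhl : S_HHL := by
  intro d hd a b ha hab
  have hb : 0 < b := ha.trans_le hab
  have hd' : (0 : ℝ) < d := by exact_mod_cast hd
  obtain ⟨a1, ha1⟩ : ∃ a1 : ℝ, a1 = a * (Real.exp (-b) * a) / d := ⟨_, rfl⟩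
  have ha1p : 0 < a1 := by rw [ha1]; positivity
  obtain ⟨C, hC⟩ : ∃ C : ℝ, C = (1 - Real.exp (-a1))⁻¹ := ⟨_, rfl⟩
  have hE1 : Real.exp (-a1) < 1 := Real.exp_lt_one_iff.mpr (by linarith)
  have hCp : 0 < C := by rw [hC]; exact inv_pos.mpr (by linarith)
  obtain ⟨B, hB⟩ : ∃ B : ℝ, B = ∑' k : ℕ, (8 * C * b) ^ k / (k.factorial : ℝ) := ⟨_, rfl⟩
  have hB0 : 0 ≤ B := by rw [hB]; exact tsum_nonneg fun k => by positivity
  refine ⟨2 / a * (b + 2 * B * Real.exp b), a / 2, by positivity, by positivity, by linarith, ?_⟩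
  intro lam t ε hl1 hl2 ht1 ht2 h0 h1
  have hlam : 0 < lam := ha.trans_le hl1
  have ht : 0 < t := ha.trans_le ht1
  obtain ⟨K, hK⟩ : ∃ K : ℝ, K = 2 / a * (b + 2 * B * Real.exp b) := ⟨_, rfl⟩
  rw [← hK]
  have hKp : 0 < K := by rw [hK]; positivity
  have hKa : K * (a / 2) = b + 2 * B * Real.exp b := by
    rw [hK]; field_simp
  have hq1 : ∀ s : ℝ, q 1 s = Real.exp (-s) * s := by
    intro s; unfold q; simp
  have hlow : a1 ≤ lam * q 1 t / d := by
    rw [ha1, hq1]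
    apply div_le_div_of_nonneg_right _ hd'.le
    apply mul_le_mul hl1 _ (by positivity) hlam.le
    apply mul_le_mul (Real.exp_le_exp.mpr (by linarith)) ht1 ha.le (Real.exp_pos _).le
  have hexp : Real.exp (-(lam * q 1 t / d)) ≤ Real.exp (-a1) := Real.exp_le_exp.mpr (by linarith)
  have hc0 : 0 ≤ (1 - Real.exp (-(lam * q 1 t / d)))⁻¹ := inv_nonneg.mpr (by linarith)
  have hc : (1 - Real.exp (-(lam * q 1 t / d)))⁻¹ ≤ C := by
    rw [hC]
    exact inv_anti₀ (by linarith) (by linarith)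
  have hsum : ∑' k : ℕ, (if 2 ≤ k then ENNReal.ofReal
      ((k : ℝ) ^ 2 * ((1 - Real.exp (-(lam * q 1 t / d)))⁻¹) ^ k *
        (lam * q k t - (lam + K * ε) * q k (t - ε))) else 0) ≤ ENNReal.ofReal (ε * B) := by
    have hS : Summable fun k : ℕ => ε * ((8 * C * b) ^ k / (k.factorial : ℝ)) :=
      (Real.summable_pow_div_factorial _).mul_left ε
    rw [hB, ← tsum_mul_left, ENNReal.ofReal_tsum_of_nonneg (fun k => by positivity) hS]
    apply ENNReal.tsum_le_tsum
    intro k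
    split_ifs with hk
    · apply ENNReal.ofReal_le_ofReal
      apply term_le hlam hl2 _ ht ht2 h0 (by linarith) hc0 hc k hk
      have : 0 ≤ K * ε := by positivity
      linarith
    · exact zero_le
  unfold HH
  have hfin : lam * q 1 t + 2 * (ε * B) ≤ (lam + K * ε) * q 1 (t - ε) := by
    rw [hq1, hq1]
    have e1 : Real.exp (-t) ≤ Real.exp (-(t - ε)) := Real.exp_le_exp.mpr (by linarith)
    have e2 : Real.exp (-b) ≤ Real.exp (-t) := Real.exp_le_exp.mpr (by linarith)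
    have h3 : 0 ≤ (lam + K * ε) * (t - ε) := by
      apply mul_nonneg (by positivity) (by linarith)
    have h4 : 2 * B * Real.exp b ≤ K * (t - ε) - lam := by
      have : K * (a / 2) ≤ K * (t - ε) := mul_le_mul_of_nonneg_left (by linarith) hKp.le
      linarith
    have h5 : 2 * B = Real.exp (-b) * (2 * B * Real.exp b) := by
      have : Real.exp (-b) * Real.exp b = 1 := by rw [← Real.exp_add]; simp
      linear_combination (-2 * B) * this
    have h6 : 2 * B ≤ Real.exp (-t) * (K * (t - ε) - lam) := by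
      rw [h5]
      apply mul_le_mul e2 h4 (by positivity) (Real.exp_pos _).le
    have h7 := mul_le_mul_of_nonneg_left h6 h0
    calc lam * (Real.exp (-t) * t) + 2 * (ε * B)
        ≤ lam * (Real.exp (-t) * t) + ε * (Real.exp (-t) * (K * (t - ε) - lam)) := by linarith
      _ = Real.exp (-t) * ((lam + K * ε) * (t - ε)) := by ring
      _ ≤ Real.exp (-(t - ε)) * ((lam + K * ε) * (t - ε)) := mul_le_mul_of_nonneg_right e1 h3
      _ = _ := by ring
  calc ENNReal.ofReal (lam * q 1 t) + 2 * ∑' k : ℕ, (if 2 ≤ k then ENNReal.ofReal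
      ((k : ℝ) ^ 2 * ((1 - Real.exp (-(lam * q 1 t / d)))⁻¹) ^ k *
        (lam * q k t - (lam + K * ε) * q k (t - ε))) else 0)
      ≤ ENNReal.ofReal (lam * q 1 t) + 2 * ENNReal.ofReal (ε * B) := by gcongr
    _ = ENNReal.ofReal (lam * q 1 t + 2 * (ε * B)) := by
        rw [ENNReal.ofReal_add (by rw [hq1]; positivity) (by positivity),
          ENNReal.ofReal_mul (by norm_num : (0:ℝ) ≤ 2)]
        norm_num
    _ ≤ _ := ENNReal.ofReal_le_ofReal hfin

end Pool.Agent.H922
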